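import Pool.Agent.Helper95.LN.Stmts

/-! Row GRD: integration by parts against the gradient of the smeared potential. -/

set_option autoImplicit false

namespace Pool.Agent.Helper59.LN

open MeasureTheory Filter Pool.Agent.Helper95.PW Pool.Agent.Helper95.LN

theorem smooth_pd (i : Fin 3) {f : R3 → ℝ} (hf : ContDiff ℝ (⊤ : ℕ∞) f) :
    ContDiff ℝ (⊤ : ℕ∞) (pd i f) := by
  have h1 : ContDiff ℝ (⊤ : ℕ∞) (fderiv ℝ f) := hf.fderiv_right (by simp)
  exact h1.clm_apply contDiff_const

theorem GRD (hA : ST_PHA) (hB : ST_PHB) (hC : ST_PHC) : ST_GRD := by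
  intro a x F ha hF hFc
  have hph : ContDiff ℝ (⊤ : ℕ∞) (ph a) := (hA a ha).1
  have hlap := (hB a ha).1
  have htr : ContDiff ℝ (⊤ : ℕ∞) (fun w : R3 => w - x) := contDiff_id.sub contDiff_const
  have hg : ∀ i, ContDiff ℝ (⊤ : ℕ∞) (fun w : R3 => pd i (ph a) (w - x)) := fun i =>
    (smooth_pd i hph).comp htr
  have hg2 : ∀ i, ContDiff ℝ (⊤ : ℕ∞) (fun w : R3 => pd i (pd i (ph a)) (w - x)) := fun i =>
    (smooth_pd i (smooth_pd i hph)).comp htr
  have hd : ∀ i (w : R3), fderiv ℝ (fun w : R3 => pd i (ph a) (w - x)) w (Pi.single i 1) =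
      pd i (pd i (ph a)) (w - x) := by
    intro i w
    rw [fderiv_comp_sub]
    rfl
  have i0 : ∀ (g : R3 → ℝ), Continuous g → Integrable (fun w => g w * F w) := fun g hgc =>
    (hgc.mul hF.continuous).integrable_of_hasCompactSupport hFc.mul_left
  have hFd : ∀ i, Continuous (pd i F) := fun i => (smooth_pd i hF).continuous
  have hFdc : ∀ i, HasCompactSupport (pd i F) := by
    intro i
    have h := hFc.fderiv (𝕜 := ℝ)
    exact h.comp_left (g := fun l : R3 →L[ℝ] ℝ => l (Pi.single i 1)) (by simp)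
  have i1 : ∀ (g : R3 → ℝ) (i : Fin 3), Continuous g → Integrable (fun w => g w * pd i F w) :=
    fun g i hgc => (hgc.mul (hFd i)).integrable_of_hasCompactSupport (hFdc i).mul_left
  have hi : ∀ i, ∫ w, pd i (ph a) (w - x) * pd i F w =
      -∫ w, pd i (pd i (ph a)) (w - x) * F w := by
    intro i
    have h := integral_mul_fderiv_eq_neg_fderiv_mul_of_integrable (μ := volume)
      (f := fun w : R3 => pd i (ph a) (w - x)) (g := F) (v := Pi.single i 1)
      (by
        simp only [hd]
        exact i0 _ (hg2 i).continuous)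
      (i1 _ i (hg i).continuous) (i0 _ (hg i).continuous)
      (fun w _ => (hg i).differentiable (by simp) w)
      (fun w _ => hF.differentiable (by simp) w)
    simp only [hd] at h
    exact h
  have hs : ∫ w, ∑ i, pd i (ph a) (w - x) * pd i F w =
      ∑ i, ∫ w, pd i (ph a) (w - x) * pd i F w :=
    integral_finset_sum _ fun i _ => i1 _ i (hg i).continuous
  rw [hs]
  simp only [hi]
  rw [Finset.sum_neg_distrib, ← integral_finset_sum _ fun i _ => i0 _ (hg2 i).continuous,
    ← integral_neg]
  refine integral_congr_ae (Eventually.of_forall fun w => ?_)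
  beta_reduce
  rw [← Finset.sum_mul]
  have h1 : ∑ i, pd i (pd i (ph a)) (w - x) = -et a (w - x) := hlap (w - x)
  rw [h1]
  ring

end Pool.Agent.Helper59.LN
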